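import Mathlib

/-!
# Interpolation for partitions into indivisible dominating sets

For every finite graph `G` and every `k` between the adomatic number and the domatic number of `G`
there is a partition of the vertex set into exactly `k` indivisible dominating sets.
-/

namespace Pool.Agent.Results.MP_a3f2aa_co.Interpolation

open Finset

/-- A set `D` of vertices of `G` is dominating if every vertex outside `D` has a neighbour
in `D`. -/
def IsDominating {V : Type*} (G : SimpleGraph V) (D : Finset V) : Prop :=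
  ∀ v, v ∉ D → ∃ u ∈ D, G.Adj v u

/-- A dominating set `D` is indivisible if it is not the union of two disjoint nonempty
dominating sets. -/
def IsIndivisible {V : Type*} [DecidableEq V] (G : SimpleGraph V) (D : Finset V) : Prop :=
  ¬ ∃ A B : Finset V, D = A ∪ B ∧ Disjoint A B ∧ A.Nonempty ∧ B.Nonempty ∧
    IsDominating G A ∧ IsDominating G B

/-- `HasDomaticPartition G m`: the vertex set can be partitioned into exactly `m` (nonempty)
dominating sets. -/
def HasDomaticPartition {V : Type*} [Fintype V] [DecidableEq V] (G : SimpleGraph V) (m : ℕ) :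
    Prop :=
  ∃ P : Finpartition (univ : Finset V), P.parts.card = m ∧ ∀ D ∈ P.parts, IsDominating G D

/-- `HasIndivisiblePartition G m`: the vertex set can be partitioned into exactly `m` (nonempty)
indivisible dominating sets. -/
def HasIndivisiblePartition {V : Type*} [Fintype V] [DecidableEq V] (G : SimpleGraph V)
    (m : ℕ) : Prop :=
  ∃ P : Finpartition (univ : Finset V), P.parts.card = m ∧
    ∀ D ∈ P.parts, IsDominating G D ∧ IsIndivisible G D

/-- The domatic number `d(G)`: the largest order of a partition of the vertex set into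
dominating sets. -/
noncomputable def domaticNumber {V : Type*} [Fintype V] [DecidableEq V] (G : SimpleGraph V) : ℕ :=
  sSup {m | HasDomaticPartition G m}

/-- The adomatic number `ad(G)`: the smallest order of a partition of the vertex set into
indivisible dominating sets. -/
noncomputable def adomaticNumber {V : Type*} [Fintype V] [DecidableEq V] (G : SimpleGraph V) : ℕ :=
  sInf {m | HasIndivisiblePartition G m}

section Abstract

variable {V : Type*} [DecidableEq V] (T : Finset V → Prop)

/-- `S` contains `k` pairwise disjoint members of `T`. -/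
def pk : ℕ → Finset V → Prop
  | 0, _ => True
  | k + 1, S => ∃ A, A ⊆ S ∧ T A ∧ pk k (S \ A)

/-- `S` can be partitioned into `k` indivisible members of `T`. -/
def sp : ℕ → Finset V → Prop
  | 0, S => S = ∅
  | k + 1, S => ∃ A, A ⊆ S ∧ T A ∧ ¬ pk T 2 A ∧ sp k (S \ A)

variable {T}

theorem pk_mono {k : ℕ} {S S' : Finset V} (h : S ⊆ S') (hk : pk T k S) : pk T k S' := by
  induction k generalizing S S' with
  | zero => trivial
  | succ k ih =>
    obtain ⟨A, hA, hTA, hk⟩ := hk
    exact ⟨A, hA.trans h, hTA, ih (sdiff_subset_sdiff h le_rfl) hk⟩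

theorem pk_of_succ {k : ℕ} {S : Finset V} (hk : pk T (k + 1) S) : pk T k S := by
  obtain ⟨A, hA, hTA, hk⟩ := hk
  exact pk_mono sdiff_subset hk

theorem pk_of_le {j k : ℕ} (hjk : j ≤ k) {S : Finset V} (hk : pk T k S) : pk T j S := by
  induction hjk with
  | refl => exact hk
  | step _ ih => exact ih (pk_of_succ hk)

theorem pk_insert {k : ℕ} {S : Finset V} {x : V} (hk : pk T (k + 1) (insert x S)) :
    pk T k S := by
  induction k generalizing S with
  | zero => trivial
  | succ k ih =>
    obtain ⟨A, hA, hTA, hk⟩ := hk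
    by_cases hx : x ∈ A
    · refine pk_mono ?_ hk
      intro y hy
      simp only [mem_sdiff, mem_insert] at hy
      rcases hy with ⟨rfl | hy, hyA⟩
      · exact absurd hx hyA
      · exact hy
    · have hAS : A ⊆ S := by
        intro y hy
        rcases mem_insert.1 (hA hy) with rfl | h
        · exact absurd hy hx
        · exact h
      refine ⟨A, hAS, hTA, ih ?_⟩
      refine pk_mono ?_ hk
      intro y hy
      simp only [mem_sdiff, mem_insert] at hy ⊢
      tauto

theorem pk_add {a b : ℕ} {A B : Finset V} (hAB : Disjoint A B) (ha : pk T a A)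
    (hb : pk T b B) : pk T (a + b) (A ∪ B) := by
  induction a generalizing A with
  | zero => rw [zero_add]; exact pk_mono subset_union_right hb
  | succ a ih =>
    obtain ⟨C, hC, hTC, ha⟩ := ha
    rw [Nat.add_right_comm]
    refine ⟨C, hC.trans subset_union_left, hTC, ?_⟩
    have : (A ∪ B) \ C = (A \ C) ∪ B := by
      rw [union_sdiff_distrib, sdiff_eq_self_of_disjoint (hAB.mono_left hC).symm]
    rw [this]
    exact ih (hAB.mono_left sdiff_subset) ha

theorem pk_card (h0 : ¬ T ∅) {k : ℕ} {S : Finset V} (hk : pk T k S) : k ≤ S.card := by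
  induction k generalizing S with
  | zero => exact Nat.zero_le _
  | succ k ih =>
    obtain ⟨A, hA, hTA, hk⟩ := hk
    have h1 := ih hk
    have h2 : 0 < A.card := by
      rw [card_pos]
      by_contra h
      rw [not_nonempty_iff_eq_empty] at h
      exact h0 (h ▸ hTA)
    rw [card_sdiff_of_subset hA] at h1
    have h3 := card_le_card hA
    omega

theorem pk_one (hT : ∀ A B : Finset V, A ⊆ B → T A → T B) {S : Finset V} :
    pk T 1 S ↔ T S := by
  constructor
  · rintro ⟨A, hA, hTA, -⟩
    exact hT _ _ hA hTA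
  · intro h
    exact ⟨S, Subset.rfl, h, trivial⟩

/-- If `S` contains `k ≥ 1` but not `k + 1` disjoint members, it can be partitioned into `k`
indivisible members. -/
theorem sp_of_pk (hT : ∀ A B : Finset V, A ⊆ B → T A → T B) {k : ℕ} {S : Finset V} (hk1 : 1 ≤ k)
    (hk : pk T k S) (hk' : ¬ pk T (k + 1) S) : sp T k S := by
  induction k generalizing S with
  | zero => omega
  | succ k ih =>
    rcases Nat.eq_zero_or_pos k with rfl | hpos
    · refine ⟨S, Subset.rfl, (pk_one hT).1 hk, hk', ?_⟩
      simp [sp]
    · obtain ⟨A, hA, hTA, hk⟩ := hk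
      refine ⟨A, hA, hTA, ?_, ih hpos hk ?_⟩
      · intro h2
        apply hk'
        have := pk_add (disjoint_sdiff (s := A) (t := S)) h2 hk
        rw [union_sdiff_of_subset hA] at this
        rwa [show k + 1 + 1 = 2 + k by omega]
      · intro h
        exact hk' ⟨A, hA, hTA, h⟩

theorem sp_add {a b : ℕ} {A B : Finset V} (hAB : Disjoint A B) (ha : sp T a A)
    (hb : sp T b B) : sp T (a + b) (A ∪ B) := by
  induction a generalizing A with
  | zero =>
    have : A = ∅ := ha
    subst this
    simpa using hb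
  | succ a ih =>
    obtain ⟨C, hC, hTC, hC2, ha⟩ := ha
    rw [Nat.add_right_comm]
    refine ⟨C, hC.trans subset_union_left, hTC, hC2, ?_⟩
    have : (A ∪ B) \ C = (A \ C) ∪ B := by
      rw [union_sdiff_distrib, sdiff_eq_self_of_disjoint (hAB.mono_left hC).symm]
    rw [this]
    exact ih (hAB.mono_left sdiff_subset) ha

/-- Two disjoint nonempty-packing parts with total packing number exactly `k`. -/
theorem sp_of_split (hT : ∀ A B : Finset V, A ⊆ B → T A → T B) {i j : ℕ} {A B : Finset V}
    (hAB : Disjoint A B) (hi : 1 ≤ i) (hj : 1 ≤ j) (hA : pk T i A) (hA' : ¬ pk T (i + 1) A)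
    (hB : pk T j B) (hB' : ¬ pk T (j + 1) B) : sp T (i + j) (A ∪ B) :=
  sp_add hAB (sp_of_pk hT hi hA hA') (sp_of_pk hT hj hB hB')

open Classical in
/-- The maximal number of disjoint members inside `S`. -/
noncomputable def dd (T : Finset V → Prop) (S : Finset V) : ℕ :=
  Nat.findGreatest (fun k => pk T k S) S.card

theorem le_dd (h0 : ¬ T ∅) {k : ℕ} {S : Finset V} : k ≤ dd T S ↔ pk T k S := by
  classical
  constructor
  · intro h
    have : pk T (dd T S) S := by
      unfold dd
      exact Nat.findGreatest_spec (P := fun k => pk T k S) (Nat.zero_le _) trivial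
    exact pk_of_le h this
  · intro h
    exact Nat.le_findGreatest (pk_card h0 h) h

theorem dd_mono (h0 : ¬ T ∅) {S S' : Finset V} (h : S ⊆ S') : dd T S ≤ dd T S' :=
  (le_dd h0).2 (pk_mono h ((le_dd h0).1 le_rfl))

theorem dd_insert (h0 : ¬ T ∅) (S : Finset V) (x : V) : dd T (insert x S) ≤ dd T S + 1 := by
  rcases Nat.eq_zero_or_pos (dd T (insert x S)) with h | h
  · omega
  · obtain ⟨m, hm⟩ : ∃ m, dd T (insert x S) = m + 1 := ⟨_, (Nat.succ_pred_eq_of_pos h).symm⟩
    have : pk T (m + 1) (insert x S) := (le_dd h0).1 hm.ge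
    have := (le_dd h0).2 (pk_insert this)
    omega

theorem one_le_dd (h0 : ¬ T ∅) (hT : ∀ A B : Finset V, A ⊆ B → T A → T B) {S : Finset V} :
    1 ≤ dd T S ↔ T S := by
  rw [le_dd h0, pk_one hT]

theorem sp_dd_add (h0 : ¬ T ∅) (hT : ∀ A B : Finset V, A ⊆ B → T A → T B)
    {A B : Finset V} (hAB : Disjoint A B) (hA : 1 ≤ dd T A) (hB : 1 ≤ dd T B) :
    sp T (dd T A + dd T B) (A ∪ B) := by
  refine sp_of_split hT hAB hA hB ((le_dd h0).1 le_rfl) ?_ ((le_dd h0).1 le_rfl) ?_
  · intro h
    have := (le_dd h0).2 h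
    omega
  · intro h
    have := (le_dd h0).2 h
    omega

/-- The total packing number of the bipartition `(X, S \ X)`. -/
noncomputable def phi (T : Finset V → Prop) (S X : Finset V) : ℕ := dd T X + dd T (S \ X)

theorem phi_ne (h0 : ¬ T ∅) (hT : ∀ A B : Finset V, A ⊆ B → T A → T B) {k : ℕ}
    {S X : Finset V} (hno : ¬ sp T k S) (hX : X ⊆ S) (h1 : 1 ≤ dd T X) (h2 : 1 ≤ dd T (S \ X)) :
    phi T S X ≠ k := by
  intro h
  apply hno
  have := sp_dd_add h0 hT (disjoint_sdiff (s := X) (t := S)) h1 h2
  rw [union_sdiff_of_subset hX] at this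
  rw [← h]
  exact this

theorem dd_sdiff_insert (h0 : ¬ T ∅) (S X : Finset V) (x : V) :
    dd T (S \ X) ≤ dd T (S \ insert x X) + 1 := by
  refine le_trans (dd_mono h0 ?_) (dd_insert h0 (S \ insert x X) x)
  intro y hy
  simp only [mem_sdiff, mem_insert] at hy ⊢
  tauto

/-- Moving through bipartitions both of whose sides are members never crosses level `k`. -/
theorem phi_path (h0 : ¬ T ∅) (hT : ∀ A B : Finset V, A ⊆ B → T A → T B) {k : ℕ}
    {S : Finset V} (hno : ¬ sp T k S) {X Y : Finset V} (hXY : X ⊆ Y) (hY : Y ⊆ S)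
    (h1 : 1 ≤ dd T X) (h2 : 1 ≤ dd T (S \ Y)) : phi T S X < k ↔ phi T S Y < k := by
  obtain ⟨D, rfl⟩ : ∃ D, Y = D ∪ X := ⟨Y, (union_eq_left.2 hXY).symm⟩
  clear hXY
  induction D using Finset.induction_on with
  | empty => simp
  | insert x D _ ih =>
    rw [insert_union] at hY h2 ⊢
    have hsub : D ∪ X ⊆ S := (subset_insert _ _).trans hY
    have h2' : 1 ≤ dd T (S \ (D ∪ X)) :=
      h2.trans (dd_mono h0 (sdiff_subset_sdiff le_rfl (subset_insert _ _)))
    rw [ih hsub h2']
    have ha : 1 ≤ dd T (D ∪ X) := h1.trans (dd_mono h0 subset_union_right)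
    have hb : 1 ≤ dd T (insert x (D ∪ X)) := ha.trans (dd_mono h0 (subset_insert _ _))
    have hne := phi_ne h0 hT hno hsub ha h2'
    have hne' := phi_ne h0 hT hno hY hb h2
    have hc := dd_insert h0 (D ∪ X) x
    have hd := dd_mono h0 (subset_insert x (D ∪ X))
    have he := dd_sdiff_insert h0 S (D ∪ X) x
    have hf : dd T (S \ insert x (D ∪ X)) ≤ dd T (S \ (D ∪ X)) :=
      dd_mono h0 (sdiff_subset_sdiff le_rfl (subset_insert _ _))
    unfold phi at *
    omega

/-- Leaving the region of admissible bipartitions from a high bipartition. -/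
theorem dd_exit (h0 : ¬ T ∅) (hT : ∀ A B : Finset V, A ⊆ B → T A → T B) {k : ℕ}
    {S : Finset V} (hno : ¬ sp T k S) {B C : Finset V} (hBC : B ⊆ C) (hC : C ⊆ S)
    (h1 : 1 ≤ dd T B) (h2 : 1 ≤ dd T (S \ B)) (hhi : k < phi T S B)
    (h3 : dd T (S \ C) = 0) : k ≤ dd T C := by
  obtain ⟨D, rfl⟩ : ∃ D, C = D ∪ B := ⟨C, (union_eq_left.2 hBC).symm⟩
  clear hBC
  induction D using Finset.induction_on with
  | empty =>
    rw [empty_union] at h3
    omega
  | insert x D _ ih =>
    rw [insert_union] at hC h3 ⊢
    have hsub : D ∪ B ⊆ S := (subset_insert _ _).trans hC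
    have hmono := dd_mono (T := T) h0 (subset_insert x (D ∪ B))
    rcases Nat.eq_zero_or_pos (dd T (S \ (D ∪ B))) with h | h
    · exact (ih hsub h).trans hmono
    · have hp := phi_path h0 hT hno (subset_union_right (s₁ := D) (s₂ := B)) hsub h1 h
      have hne := phi_ne h0 hT hno hsub (h1.trans (dd_mono h0 subset_union_right)) h
      have he := dd_sdiff_insert h0 S (D ∪ B) x
      unfold phi at *
      omega

/-- There is no pair consisting of a low and a high member. -/
theorem no_low_high (h0 : ¬ T ∅) (hT : ∀ A B : Finset V, A ⊆ B → T A → T B) {k : ℕ}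
    (hk : 2 ≤ k) {S : Finset V} (hno : ¬ sp T k S) {A : Finset V} (hA : A ⊆ S)
    (hA1 : 1 ≤ dd T A) (hA2 : 1 ≤ dd T (S \ A)) (hlow : phi T S A < k) :
    ∀ n : ℕ, ∀ B : Finset V, (B \ A).card = n → B ⊆ S → 1 ≤ dd T B → 1 ≤ dd T (S \ B) →
      ¬ k < phi T S B := by
  intro n
  induction n using Nat.strong_induction_on with
  | _ n ih =>
    intro B hn hB hB1 hB2 hhi
    have hAB : A ∪ B ⊆ S := union_subset hA hB
    -- the complement of `A ∪ B` is not a member
    have h3 : dd T (S \ (A ∪ B)) = 0 := by
      by_contra h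
      have h : 1 ≤ dd T (S \ (A ∪ B)) := Nat.pos_of_ne_zero h
      have e1 := phi_path h0 hT hno (subset_union_left (s₁ := A) (s₂ := B)) hAB hA1 h
      have e2 := phi_path h0 hT hno (subset_union_right (s₁ := A) (s₂ := B)) hAB hB1 h
      have := e2.2 (e1.1 hlow)
      omega
    have h4 : k ≤ dd T (A ∪ B) :=
      dd_exit h0 hT hno subset_union_right hAB hB1 hB2 hhi h3
    obtain ⟨m, rfl⟩ : ∃ m, k = m + 2 := ⟨k - 2, by omega⟩
    obtain ⟨P, hP, hTP, Q, hQ, hTQ, hm⟩ := (le_dd h0).1 h4
    have hPS : P ⊆ S := hP.trans hAB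
    have hQS : Q ⊆ S := (hQ.trans sdiff_subset).trans hAB
    have hPQ : Disjoint P Q := (disjoint_sdiff (s := P) (t := A ∪ B)).mono_right hQ
    have hP1 : 1 ≤ dd T P := (one_le_dd h0 hT).2 hTP
    have hQ1 : 1 ≤ dd T Q := (one_le_dd h0 hT).2 hTQ
    have hQP : Q ⊆ S \ P := by
      intro y hy
      exact mem_sdiff.2 ⟨hQS hy, fun h => (disjoint_left.1 hPQ) h hy⟩
    have hPQ' : P ⊆ S \ Q := by
      intro y hy
      exact mem_sdiff.2 ⟨hPS hy, fun h => (disjoint_left.1 hPQ) hy h⟩
    have hP2 : m + 1 ≤ dd T (S \ P) := by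
      rw [le_dd h0]
      refine ⟨Q, hQP, hTQ, pk_mono ?_ hm⟩
      intro y hy
      simp only [mem_sdiff] at hy ⊢
      exact ⟨⟨hAB hy.1.1, hy.1.2⟩, hy.2⟩
    have hQ2 : m + 1 ≤ dd T (S \ Q) := by
      rw [le_dd h0]
      refine ⟨P, hPQ', hTP, pk_mono ?_ hm⟩
      intro y hy
      simp only [mem_sdiff] at hy ⊢
      exact ⟨⟨hAB hy.1.1, hy.2⟩, hy.1.2⟩
    -- `Q` is not contained in `A`
    have hQA : ¬ Q ⊆ A := by
      intro hsub
      have := (phi_path h0 hT hno hsub hA hQ1 hA2).2 hlow
      unfold phi at this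
      omega
    -- `P` is high and closer to `A`
    have hPhi : m + 2 < phi T S P := by
      have h5 := phi_ne h0 hT hno hPS hP1 (by omega)
      unfold phi at *
      omega
    refine ih (P \ A).card ?_ P rfl hPS hP1 (by omega) hPhi
    rw [← hn]
    apply card_lt_card
    refine ⟨?_, ?_⟩
    · intro y hy
      rw [mem_sdiff] at hy ⊢
      refine ⟨?_, hy.2⟩
      rcases mem_union.1 (hP hy.1) with h | h
      · exact absurd h hy.2
      · exact h
    · intro hsub
      apply hQA
      intro y hy
      by_contra hyA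
      have hy1 : y ∈ A ∪ B := (mem_sdiff.1 (hQ hy)).1
      have hyB : y ∈ B := by
        rcases mem_union.1 hy1 with h | h
        · exact absurd h hyA
        · exact h
      have := hsub (mem_sdiff.2 ⟨hyB, hyA⟩)
      exact (disjoint_left.1 hPQ) (mem_sdiff.1 this).1 hy

/-- Interpolation for an arbitrary up-closed family. -/
theorem interpolation (h0 : ¬ T ∅) (hT : ∀ A B : Finset V, A ⊆ B → T A → T B) :
    ∀ (a : ℕ) (S : Finset V) (k : ℕ), sp T a S → a ≤ k → pk T k S → sp T k S := by
  intro a
  induction a with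
  | zero =>
    intro S k hS _ hk
    have hS' : S = ∅ := hS
    subst hS'
    have := pk_card h0 hk
    rw [card_empty] at this
    obtain rfl : k = 0 := by omega
    exact hS
  | succ a ih =>
    intro S k hS hak hk
    by_contra hno
    obtain ⟨D, hD, hTD, hD2, ha⟩ := hS
    have hk1 : 1 ≤ k := by omega
    have hne : k ≠ a + 1 := by
      rintro rfl
      exact hno ⟨D, hD, hTD, hD2, ha⟩
    have hk2 : 2 ≤ k := by omega
    rcases Nat.eq_zero_or_pos a with rfl | hpos
    · have hS0 : S \ D = ∅ := ha
      have hSD : S ⊆ D := sdiff_eq_empty_iff_subset.1 hS0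
      exact hD2 (pk_of_le hk2 (pk_mono hSD hk))
    · have hTSD : T (S \ D) := by
        obtain ⟨b, rfl⟩ : ∃ b, a = b + 1 := ⟨a - 1, by omega⟩
        obtain ⟨E, hE, hTE, -, -⟩ := ha
        exact hT _ _ hE hTE
      have hlowD : ¬ pk T (k - 1) (S \ D) := by
        intro h
        have h' := ih (S \ D) (k - 1) ha (by omega) h
        apply hno
        obtain ⟨m, rfl⟩ : ∃ m, k = m + 1 := ⟨k - 1, by omega⟩
        exact ⟨D, hD, hTD, hD2, h'⟩
      have hD1 : 1 ≤ dd T D := (one_le_dd h0 hT).2 hTD
      have hD1' : dd T D < 2 := by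
        by_contra h
        exact hD2 ((le_dd h0).1 (by omega))
      have hlow : phi T S D < k := by
        have : dd T (S \ D) < k - 1 := by
          by_contra h
          exact hlowD ((le_dd h0).1 (by omega))
        unfold phi
        omega
      by_cases hk' : pk T (k + 1) S
      · obtain ⟨B, hB, hTB, hB'⟩ := hk'
        have hB1 : 1 ≤ dd T B := (one_le_dd h0 hT).2 hTB
        have hB2 : k ≤ dd T (S \ B) := (le_dd h0).2 hB'
        exact no_low_high h0 hT hk2 hno hD hD1 ((one_le_dd h0 hT).2 hTSD) hlow _ B rfl hB hB1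
          (by omega) (by unfold phi; omega)
      · exact hno (sp_of_pk hT hk1 hk hk')

/-- From the recursive description to a partition. -/
theorem exists_finpartition_of_sp (h0 : ¬ T ∅) {k : ℕ} {S : Finset V} (h : sp T k S) :
    ∃ P : Finpartition S, P.parts.card = k ∧ ∀ D ∈ P.parts, T D ∧ ¬ pk T 2 D := by
  induction k generalizing S with
  | zero =>
    have : S = ∅ := h
    subst this
    exact ⟨Finpartition.empty _, by simp [Finpartition.empty], by simp [Finpartition.empty]⟩
  | succ k ih =>
    obtain ⟨A, hA, hTA, hA2, h⟩ := h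
    obtain ⟨P, hP, hP'⟩ := ih h
    have hne : A ≠ ⊥ := by
      rintro rfl
      exact h0 hTA
    have hdis : Disjoint (S \ A) A := sdiff_disjoint
    refine ⟨P.extend hne hdis (by rw [sup_eq_union, sdiff_union_of_subset hA]), ?_, ?_⟩
    · rw [Finpartition.card_extend, hP]
    · intro D hD
      rw [Finpartition.extend, mem_insert] at hD
      rcases hD with rfl | hD
      · exact ⟨hTA, hA2⟩
      · exact hP' D hD

/-- From a family of disjoint sets to the recursive description. -/
theorem sp_of_family {F : Finset (Finset V)} (hF : (F : Set (Finset V)).PairwiseDisjoint id)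
    (hF' : ∀ D ∈ F, T D ∧ ¬ pk T 2 D) : sp T F.card (F.sup id) := by
  induction F using Finset.induction_on with
  | empty => simp [sp]
  | insert A F hAF ih =>
    rw [card_insert_of_notMem hAF, sup_insert]
    have hA := hF' A (mem_insert_self _ _)
    have hdis : Disjoint (F.sup id) A := by
      rw [Finset.disjoint_sup_left]
      intro B hB
      have hne : B ≠ A := by
        rintro rfl
        exact hAF hB
      exact hF (mem_insert_of_mem hB) (mem_insert_self _ _) hne
    refine ⟨A, subset_union_left, hA.1, hA.2, ?_⟩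
    have : (id A ⊔ F.sup id) \ A = F.sup id := by
      rw [sup_eq_union, id, union_sdiff_left, sdiff_eq_self_of_disjoint hdis]
    rw [this]
    refine ih (hF.subset ?_) fun D hD => hF' D (mem_insert_of_mem hD)
    exact fun x hx => mem_insert_of_mem hx

theorem pk_of_family {F : Finset (Finset V)} (hF : (F : Set (Finset V)).PairwiseDisjoint id)
    (hF' : ∀ D ∈ F, T D) : pk T F.card (F.sup id) := by
  induction F using Finset.induction_on with
  | empty => simp [pk]
  | insert A F hAF ih =>
    rw [card_insert_of_notMem hAF, sup_insert]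
    have hA := hF' A (mem_insert_self _ _)
    have hdis : Disjoint (F.sup id) A := by
      rw [Finset.disjoint_sup_left]
      intro B hB
      have hne : B ≠ A := by
        rintro rfl
        exact hAF hB
      exact hF (mem_insert_of_mem hB) (mem_insert_self _ _) hne
    refine ⟨A, subset_union_left, hA, ?_⟩
    have : (id A ⊔ F.sup id) \ A = F.sup id := by
      rw [sup_eq_union, id, union_sdiff_left, sdiff_eq_self_of_disjoint hdis]
    rw [this]
    refine ih (hF.subset ?_) fun D hD => hF' D (mem_insert_of_mem hD)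
    exact fun x hx => mem_insert_of_mem hx

end Abstract

section Graph

variable {V : Type*} [Fintype V] [DecidableEq V] (G : SimpleGraph V)

theorem isDominating_mono (A B : Finset V) (h : A ⊆ B) (hA : IsDominating G A) :
    IsDominating G B := by
  intro v hv
  obtain ⟨u, hu, huv⟩ := hA v (fun hvA => hv (h hvA))
  exact ⟨u, h hu, huv⟩

theorem not_isDominating_empty [Nonempty V] : ¬ IsDominating G (∅ : Finset V) := by
  intro h
  obtain ⟨v⟩ := ‹Nonempty V›
  obtain ⟨u, hu, -⟩ := h v (notMem_empty v)
  exact notMem_empty u hu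

theorem isIndivisible_iff [Nonempty V] (D : Finset V) :
    IsIndivisible G D ↔ ¬ pk (IsDominating G) 2 D := by
  rw [IsIndivisible, not_iff_not]
  constructor
  · rintro ⟨A, B, rfl, hAB, -, -, hA, hB⟩
    refine ⟨A, subset_union_left, hA, B, ?_, hB, trivial⟩
    rw [union_sdiff_left, sdiff_eq_self_of_disjoint hAB.symm]
  · rintro ⟨A, hAD, hA, B, hBD, hB, -⟩
    have hB' : IsDominating G (D \ A) := isDominating_mono G _ _ hBD hB
    refine ⟨A, D \ A, (union_sdiff_of_subset hAD).symm, disjoint_sdiff, ?_, ?_, hA, hB'⟩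
    · rw [nonempty_iff_ne_empty]
      rintro rfl
      exact not_isDominating_empty G hA
    · rw [nonempty_iff_ne_empty]
      intro h
      rw [h] at hB'
      exact not_isDominating_empty G hB'

theorem hasIndivisiblePartition_iff [Nonempty V] (m : ℕ) :
    HasIndivisiblePartition G m ↔ sp (IsDominating G) m (univ : Finset V) := by
  constructor
  · rintro ⟨P, rfl, hP⟩
    have := sp_of_family (T := IsDominating G) P.supIndep.pairwiseDisjoint
      (fun D hD => ⟨(hP D hD).1, (isIndivisible_iff G D).1 (hP D hD).2⟩)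
    rwa [P.sup_parts] at this
  · intro h
    obtain ⟨P, hP, hP'⟩ := exists_finpartition_of_sp (not_isDominating_empty G) h
    exact ⟨P, hP, fun D hD => ⟨(hP' D hD).1, (isIndivisible_iff G D).2 (hP' D hD).2⟩⟩

theorem pk_of_hasDomaticPartition {m : ℕ} (h : HasDomaticPartition G m) :
    pk (IsDominating G) m (univ : Finset V) := by
  obtain ⟨P, rfl, hP⟩ := h
  have := pk_of_family (T := IsDominating G) P.supIndep.pairwiseDisjoint hP
  rwa [P.sup_parts] at this

theorem bddAbove_domatic : BddAbove {m | HasDomaticPartition G m} := by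
  refine ⟨Fintype.card V, ?_⟩
  rintro m ⟨P, rfl, -⟩
  exact P.card_parts_le_card

theorem hasDomaticPartition_one [Nonempty V] : HasDomaticPartition G 1 := by
  refine ⟨Finpartition.indiscrete (by simpa using univ_nonempty.ne_empty), ?_, ?_⟩
  · simp
  · intro D hD
    simp only [Finpartition.indiscrete_parts, mem_singleton] at hD
    subst hD
    intro v hv
    exact absurd (mem_univ v) hv

end Graph

/-- **Interpolation theorem for indivisible dominating partitions.** For every finite graph `G`
on a nonempty vertex set and every `k` with `ad(G) ≤ k ≤ d(G)`, the vertex set of `G` can be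
partitioned into exactly `k` indivisible dominating sets. -/
theorem result {V : Type*} [Fintype V] [DecidableEq V] [Nonempty V] (G : SimpleGraph V) (k : ℕ)
    (h₁ : adomaticNumber G ≤ k) (h₂ : k ≤ domaticNumber G) :
    ∃ P : Finpartition (Finset.univ : Finset V), P.parts.card = k ∧
      ∀ D ∈ P.parts, IsDominating G D ∧ IsIndivisible G D := by
  have h0 := not_isDominating_empty G
  have hT := isDominating_mono G
  have hd : HasDomaticPartition G (domaticNumber G) :=
    Nat.sSup_mem ⟨1, hasDomaticPartition_one G⟩ (bddAbove_domatic G)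
  have hd1 : 1 ≤ domaticNumber G := le_csSup (bddAbove_domatic G) (hasDomaticPartition_one G)
  have hpkd : pk (IsDominating G) (domaticNumber G) univ := pk_of_hasDomaticPartition G hd
  -- the spectrum is nonempty
  have hdd1 : 1 ≤ dd (IsDominating G) (univ : Finset V) :=
    hd1.trans ((le_dd h0).2 hpkd)
  have hne : {m | HasIndivisiblePartition G m}.Nonempty := by
    refine ⟨dd (IsDominating G) (univ : Finset V), ?_⟩
    refine (hasIndivisiblePartition_iff G _).2 (sp_of_pk hT hdd1 ((le_dd h0).1 le_rfl) ?_)
    intro h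
    have := (le_dd h0).2 h
    omega
  have had : HasIndivisiblePartition G (adomaticNumber G) := Nat.sInf_mem hne
  exact (hasIndivisiblePartition_iff G k).2
    (interpolation h0 hT (adomaticNumber G) univ k ((hasIndivisiblePartition_iff G _).1 had) h₁
      (pk_of_le h₂ hpkd))

end Pool.Agent.Results.MP_a3f2aa_co.Interpolation
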